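import Pool.Agent.Y25.G.Base
import Pool.Agent.Y223.G.Stm6

/-!
Project G: the generic fibre, for Weil restrictions along arbitrary finite extensions.
-/

set_option autoImplicit false
set_option linter.unusedSectionVars false

namespace Pool.Agent.Y614.GM

open Pool.Agent.Y223.G
open Pool.Agent.Y25.G (MN_mul MN_one MN_zero MN_succ MN_z FS_pow OL_alg OL_inv mem_res)

section TT

variable {k K : Type} (M : Type) {Ω : Type} [Fintype Ω] [CommRing k] [Field M] [Field K]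
  [Algebra k K] [Algebra M K]

/-- The products of the forms of degree `d`. -/
def TT {K : Type} (M : Type) {Ω : Type} [Fintype Ω] [Field M] [Field K] [Algebra M K]
    {m : ℕ} (z : Ω → Fin (m + 1) → K) (d : ℕ) : Submodule M K :=
  Submodule.span M {w | ∃ x : Ω → K, (∀ ω, x ω ∈ MN (z ω) d) ∧ w = ∏ ω, x ω}

/-- The products of the coordinates. -/
def SG {K : Type} (M : Type) {Ω : Type} [Fintype Ω] [Field M] [Field K] [Algebra M K]
    {m : ℕ} (z : Ω → Fin (m + 1) → K) : Submodule M K :=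
  Submodule.span M (Set.range fun J : Ω → Fin (m + 1) => ∏ ω, z ω (J ω))

variable {m : ℕ} {z : Ω → Fin (m + 1) → K}

lemma TT_mul (d e : ℕ) : TT M z d * TT M z e ≤ TT M z (d + e) := by
  unfold TT
  rw [Submodule.span_mul_span, Submodule.span_le]
  rintro _ ⟨_, ⟨x, hx, rfl⟩, _, ⟨y, hy, rfl⟩, rfl⟩
  apply Submodule.subset_span
  refine ⟨fun ω => x ω * y ω, fun ω => MN_mul (z ω) (hx ω) (hy ω), ?_⟩
  change (∏ ω, x ω) * (∏ ω, y ω) = _
  rw [← Finset.prod_mul_distrib]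

lemma TT_one : (1 : K) ∈ TT M z 0 := by
  apply Submodule.subset_span
  refine ⟨fun _ => 1, fun ω => MN_one (z ω), ?_⟩
  exact (Finset.prod_eq_one (f := fun _ : Ω => (1 : K)) fun _ _ => rfl).symm

lemma TT_le (d : ℕ) : TT M z d ≤ SG M z ^ d := by
  induction d with
  | zero =>
    unfold TT
    rw [Submodule.span_le, pow_zero]
    rintro _ ⟨x, hx, rfl⟩
    have h1 : ∏ ω, x ω = 1 := Finset.prod_eq_one fun ω _ => MN_zero (z ω) (hx ω)
    rw [h1]
    exact Submodule.one_le.1 le_rfl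
  | succ d ih =>
    unfold TT
    rw [Submodule.span_le, pow_succ']
    rintro _ ⟨x, hx, rfl⟩
    choose J x' hx' he using fun ω => MN_succ (z ω) (hx ω)
    have h1 : ∏ ω, x ω = (∏ ω, z ω (J ω)) * ∏ ω, x' ω := by
      rw [← Finset.prod_mul_distrib]
      exact Finset.prod_congr rfl fun ω _ => he ω
    rw [h1]
    exact Submodule.mul_mem_mul (Submodule.subset_span ⟨J, rfl⟩)
      (ih (Submodule.subset_span ⟨x', hx', rfl⟩))

lemma le_TT (d : ℕ) : SG M z ^ d ≤ TT M z d := by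
  induction d with
  | zero =>
    rw [pow_zero, Submodule.one_le]
    exact TT_one M
  | succ d ih =>
    rw [pow_succ]
    have h1 : SG M z ≤ TT M z 1 := by
      unfold SG
      rw [Submodule.span_le]
      rintro _ ⟨J, rfl⟩
      exact Submodule.subset_span ⟨fun ω => z ω (J ω), fun ω => MN_z (z ω) (J ω), rfl⟩
    exact le_trans (mul_le_mul' ih h1) (TT_mul M d 1)

/-- Products of forms. -/
lemma prod_TT (hk : ∀ c : k, ∃ x : M, algebraMap M K x = algebraMap k K c) {d : ℕ}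
    (x : Ω → K) (hx : ∀ ω, x ω ∈ FS k (z ω) d) : ∏ ω, x ω ∈ TT M z d := by
  classical
  have h1 : ∀ ω, ∃ (n : ℕ) (f : Fin n → k) (g : Fin n → MN (z ω) d),
      ∑ j, f j • ((g j : K)) = x ω := fun ω => Submodule.mem_span_set'.1 (hx ω)
  choose n f g hfg using h1
  have h2 : ∀ ω, x ω = ∑ j : Fin (n ω), algebraMap k K (f ω j) * (g ω j : K) := by
    intro ω
    rw [← hfg ω]
    refine Finset.sum_congr rfl fun j _ => ?_
    rw [Algebra.smul_def]
  rw [Finset.prod_congr rfl fun ω _ => h2 ω, Finset.prod_univ_sum]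
  refine Submodule.sum_mem _ fun φ _ => ?_
  rw [Finset.prod_mul_distrib]
  choose l hl using hk
  have h3 : ∏ ω, algebraMap k K (f ω (φ ω)) = algebraMap M K (∏ ω, l (f ω (φ ω))) := by
    rw [map_prod]
    exact Finset.prod_congr rfl fun i _ => (hl _).symm
  rw [h3, ← Algebra.smul_def]
  exact Submodule.smul_mem _ _ (Submodule.subset_span ⟨fun ω => (g ω (φ ω) : K),
    fun ω => (g ω (φ ω)).2, rfl⟩)

end TT

section norm

variable {k O K G : Type} [CommRing k] [IsDomain k] [CommRing O] [IsDomain O]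
    [IsDedekindDomain O] [Field K] [Group G] [Finite G] [Algebra k O] [Algebra O K] [Algebra k K]
    [IsScalarTower k O K] {ρ : G →* (K ≃ₐ[k] K)} {T : G →* (O ≃ₐ[k] O)}

/-- A nonzero constant in the norm of an element of the base. -/
lemma exists_norm (hG : GB k O K G ρ T) {b : O} (hb : b ≠ 0) : ∃ (c : k) (r : O), c ≠ 0 ∧
    algebraMap k O c = b * r := by
  classical
  cases nonempty_fintype G
  have hfix : ∀ g, T g (∏ x, T x b) = ∏ x, T x b := by
    intro g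
    rw [map_prod]
    refine Fintype.prod_equiv (Equiv.mulLeft g) _ _ fun x => ?_
    rw [Equiv.coe_mulLeft, map_mul]
    rfl
  obtain ⟨c, hc⟩ := hG.fix _ hfix
  have hne : (∏ x, T x b) ≠ 0 := by
    rw [Finset.prod_ne_zero_iff]
    intro x _
    exact (map_ne_zero_iff _ (T x).injective).2 hb
  refine ⟨c, ∏ x ∈ Finset.univ.erase 1, T x b, ?_, ?_⟩
  · rintro rfl
    rw [map_zero] at hc
    exact hne hc.symm
  · rw [hc, ← Finset.mul_prod_erase Finset.univ (fun x => T x b) (Finset.mem_univ 1), map_one]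
    rfl

lemma s_ne (hG : GB k O K G ρ T) {s : k} (hs : s ≠ 0) : algebraMap k K s ≠ 0 :=
  (map_ne_zero_iff _ hG.injk).2 hs

end norm

section chart

variable {k O K : Type} [CommRing k] [CommRing O] [Field K] [Algebra k O] [Algebra O K]
  [Algebra k K] [IsScalarTower k O K] {Ω : Type} {m : ℕ} {z : Ω → Fin (m + 1) → K} {s : k}
  {d : ℕ} {Φ : Ω → K}

/-- The chart of a family of forms (degree zero). -/
noncomputable abbrev CF {k : Type} (O : Type) {K Ω : Type} [CommRing k] [CommRing O] [Field K]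
    [Algebra k O] [Algebra O K] [Algebra k K] [IsScalarTower k O K]
    {m : ℕ} (z : Ω → Fin (m + 1) → K) (s : k) (d : ℕ) (Φ : Ω → K) : Subalgebra (OL O (K := K) s) K :=
  CG (OL O (K := K) s) z d Φ

lemma CF_OL {x : K} (hx : x ∈ OL O (K := K) s) : x ∈ CF O z s d Φ :=
  (CF O z s d Φ).algebraMap_mem (⟨x, hx⟩ : OL O (K := K) s)

lemma CF_gen (ω : Ω) {x : K} (hx : x ∈ MN (z ω) d) : x / Φ ω ∈ CF O z s d Φ := by
  have h1 : AF (OL O (K := K) s) (z ω) d (Φ ω) ≤ CF O z s d Φ :=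
    le_iSup (fun ω => AF (OL O (K := K) s) (z ω) d (Φ ω)) ω
  exact h1 (Algebra.subset_adjoin ⟨x, hx, rfl⟩)

/-- Induction on the elements of a chart. -/
lemma CF_ind {P : K → Prop} (hO : ∀ x ∈ OL O (K := K) s, P x)
    (hg : ∀ ω, ∀ x ∈ MN (z ω) d, P (x / Φ ω)) (hadd : ∀ x y, P x → P y → P (x + y))
    (hmul : ∀ x y, P x → P y → P (x * y)) : ∀ x ∈ CF O z s d Φ, P x := by
  let S : Subalgebra (OL O (K := K) s) K :=
    { carrier := {x | P x}
      mul_mem' := fun {x y} hx hy => hmul x y hx hy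
      add_mem' := fun {x y} hx hy => hadd x y hx hy
      algebraMap_mem' := fun r => hO _ r.2 }
  have hle : CF O z s d Φ ≤ S := by
    refine iSup_le fun ω => ?_
    unfold AF
    rw [Algebra.adjoin_le_iff]
    rintro _ ⟨x, hx, rfl⟩
    exact hg ω x hx
  exact fun x hx => hle hx

lemma mem_GRG {G : Type} [Group G] {ρ : G →* (K ≃ₐ[k] K)} {N : Type}
    {𝔔 : N → Ideal (OL O (K := K) s)} {p l : N → ℕ} (hp : ∀ i, 0 < p i) {τ : N → G}
    {Y : Type} [Field Y] [Algebra k Y] (ι : Y →ₐ[k] K) (y : Y) :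
    hm 0 y ∈ res ι (GRG O ρ z s 𝔔 p l τ d Φ) ↔ ι y ∈ CF O z s d Φ := by
  rw [mem_res]
  unfold GRG RG
  rw [Algebra.mem_inf, Algebra.mem_iInf]
  constructor
  · rintro ⟨h1, -⟩
    exact RR_mem_C (fun c hc => hc) h1
  · intro h1
    exact ⟨RR_c one_pos h1, fun i => RR_c (hp i) h1⟩

end chart

section gen

variable {k O M Y K G Ω : Type} [CommRing k] [IsDomain k]
  [CommRing O] [IsDomain O] [IsDedekindDomain O] [Field M] [Field Y] [Field K] [Group G]
  [Finite G] [Fintype Ω] [MulAction G Ω] [Algebra k O] [Algebra O K] [Algebra k K]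
  [IsScalarTower k O K] [Algebra M K] [Algebra k Y] {ι : Y →ₐ[k] K} {ρ : G →* (K ≃ₐ[k] K)}
  {T : G →* (O ≃ₐ[k] O)} {m : ℕ} {z : Ω → Fin (m + 1) → K}

lemma k_M (hG : GHG k O M Y K G Ω ι ρ T m z) (c : k) :
    ∃ x : M, algebraMap M K x = algebraMap k K c := by
  obtain ⟨x, hx⟩ := hG.lo (algebraMap k O c)
  exact ⟨x, by rw [hx, ← IsScalarTower.algebraMap_apply k O K]⟩

lemma OL_M (hG : GHG k O M Y K G Ω ι ρ T m z) {s : k} (hs : s ≠ 0) {g : K}
    (hg : g ∈ OL O (K := K) s) : ∃ x : M, algebraMap M K x = g := by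
  obtain ⟨n, y, h⟩ := hg
  obtain ⟨a, ha⟩ := k_M hG s
  obtain ⟨b, hb⟩ := hG.lo y
  have hs0 : algebraMap k K s ≠ 0 := s_ne hG.toGB hs
  refine ⟨(a ^ n)⁻¹ * b, ?_⟩
  rw [map_mul, map_inv₀, map_pow, ha, hb, ← h, ← mul_assoc,
    inv_mul_cancel₀ (pow_ne_zero _ hs0), one_mul]

lemma pow_SG (hG : GHG k O M Y K G Ω ι ρ T m z) {M₀ : Submodule k Y}
    (hM : Submodule.span M (ι '' (M₀ : Set Y)) = SG M z) (n : ℕ) :
    ∀ x ∈ M₀ ^ n, ι x ∈ SG M z ^ n := by
  induction n with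
  | zero =>
    intro x hx
    rw [pow_zero, Submodule.mem_one] at hx
    obtain ⟨c, rfl⟩ := hx
    rw [AlgHom.commutes, pow_zero, Submodule.mem_one]
    exact k_M hG c
  | succ n ih =>
    intro x hx
    rw [pow_succ] at hx ⊢
    induction hx using Submodule.mul_induction_on' with
    | mem_mul_mem a ha b hb =>
      rw [map_mul]
      refine Submodule.mul_mem_mul (ih a ha) ?_
      rw [← hM]
      exact Submodule.subset_span ⟨b, hb, rfl⟩
    | add a _ b _ ha hb =>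
      rw [map_add]
      exact Submodule.add_mem _ ha hb

lemma SG_pow {M₀ : Submodule k Y}
    (hM : Submodule.span M (ι '' (M₀ : Set Y)) = SG M z) (n : ℕ) :
    SG M z ^ n ≤ Submodule.span M (ι '' ((M₀ ^ n : Submodule k Y) : Set Y)) := by
  induction n with
  | zero =>
    rw [pow_zero, Submodule.one_le]
    apply Submodule.subset_span
    refine ⟨1, ?_, map_one ι⟩
    rw [pow_zero]
    exact Submodule.one_le.1 le_rfl
  | succ n ih =>
    rw [pow_succ, ← hM]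
    rw [← hM] at ih
    refine le_trans (mul_le_mul' ih le_rfl) ?_
    rw [Submodule.span_mul_span, Submodule.span_le]
    rintro _ ⟨_, ⟨a, ha, rfl⟩, _, ⟨b, hb, rfl⟩, rfl⟩
    apply Submodule.subset_span
    refine ⟨a * b, ?_, map_mul ι a b⟩
    rw [pow_succ]
    exact Submodule.mul_mem_mul ha hb

lemma T_sat (hD : S_DSCG) (hG : GHG k O M Y K G Ω ι ρ T m z) {M₀ : Submodule k Y}
    (hM : Submodule.span M (ι '' (M₀ : Set Y)) = SG M z) (n : ℕ) (y : Y)
    (hy : ι y ∈ TT M z n) : y ∈ sat (M₀ ^ n) :=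
  hD k O M Y K G Ω ι ρ T m z hG (M₀ ^ n) y (SG_pow hM n (TT_le M n hy))

lemma T_frac (hG : GHG k O M Y K G Ω ι ρ T m z) {s : k} (hs : s ≠ 0) {d : ℕ} {Φ : Ω → K}
    (w : K) (hw : w ∈ TT M z d) : ∃ b : O, b ≠ 0 ∧
      algebraMap O K b * (w / ((∏ ω, Φ ω) * algebraMap k K s)) ∈ CF O z s d Φ := by
  unfold TT at hw
  induction hw using Submodule.span_induction with
  | mem w hw =>
    obtain ⟨x, hx, rfl⟩ := hw
    refine ⟨1, one_ne_zero, ?_⟩
    have h1 : (∏ ω, x ω) / ((∏ ω, Φ ω) * algebraMap k K s) =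
        (∏ ω, x ω / Φ ω) * (algebraMap k K s)⁻¹ := by
      rw [Finset.prod_div_distrib, div_mul_eq_div_div, div_eq_mul_inv _ (algebraMap k K s)]
    rw [map_one, one_mul, h1]
    exact mul_mem (prod_mem fun ω _ => CF_gen ω (hx ω)) (CF_OL (OL_inv (s_ne hG.toGB hs)))
  | zero => exact ⟨1, one_ne_zero, by rw [zero_div, mul_zero]; exact zero_mem _⟩
  | add w w' _ _ h h' =>
    obtain ⟨b, hb, h⟩ := h
    obtain ⟨b', hb', h'⟩ := h'
    refine ⟨b * b', mul_ne_zero hb hb', ?_⟩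
    have h1 := add_mem (mul_mem (CF_OL (OL_alg b')) h) (mul_mem (CF_OL (OL_alg b)) h')
    rw [map_mul, add_div]
    have h2 : algebraMap O K b * algebraMap O K b' *
        (w / ((∏ ω, Φ ω) * algebraMap k K s) + w' / ((∏ ω, Φ ω) * algebraMap k K s)) =
        algebraMap O K b' * (algebraMap O K b * (w / ((∏ ω, Φ ω) * algebraMap k K s))) +
        algebraMap O K b * (algebraMap O K b' * (w' / ((∏ ω, Φ ω) * algebraMap k K s))) := by
      ring
    rw [h2]
    exact h1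
  | smul r w _ h =>
    obtain ⟨b, hb, h⟩ := h
    obtain ⟨a, b', hb', ha⟩ := hG.lf r
    refine ⟨b * b', mul_ne_zero hb hb', ?_⟩
    have h1 := mul_mem (CF_OL (OL_alg a)) h
    have h2 : algebraMap O K (b * b') * (r • w / ((∏ ω, Φ ω) * algebraMap k K s)) =
        algebraMap O K a * (algebraMap O K b * (w / ((∏ ω, Φ ω) * algebraMap k K s))) := by
      rw [Algebra.smul_def, map_mul, ← ha]
      ring
    rw [h2]
    exact h1

/-- The powers of the product of a family of forms. -/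
lemma NF_pow (hG : GHG k O M Y K G Ω ι ρ T m z) {d : ℕ} {Φ : Ω → K}
    (hΦ : ∀ ω, Φ ω ∈ FS k (z ω) d) (N : ℕ) : (∏ ω, Φ ω) ^ N ∈ TT M z (d * N) := by
  have h1 := prod_TT M (k_M hG) (fun ω => Φ ω ^ N) fun ω => FS_pow (z ω) (hΦ ω) N
  rw [Finset.prod_pow] at h1
  exact h1

lemma CF_TT (hG : GHG k O M Y K G Ω ι ρ T m z) {s : k} (hs : s ≠ 0) {d : ℕ} {Φ : Ω → K}
    (hΦ : Fm k K G Ω ρ z d Φ) (g : K) (hg : g ∈ CF O z s d Φ) :
    ∃ N₀ : ℕ, ∀ N, N₀ ≤ N → (∏ ω, Φ ω) ^ N * g ∈ TT M z (d * N) := by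
  classical
  refine CF_ind (P := fun g => ∃ N₀ : ℕ, ∀ N, N₀ ≤ N →
    (∏ ω, Φ ω) ^ N * g ∈ TT M z (d * N)) ?_ ?_ ?_ ?_ g hg
  · intro x hx
    obtain ⟨l, rfl⟩ := OL_M hG hs hx
    refine ⟨0, fun N _ => ?_⟩
    rw [mul_comm _ (algebraMap M K l), ← Algebra.smul_def]
    exact Submodule.smul_mem _ _ (NF_pow hG hΦ.mem N)
  · intro ω₀ x hx
    refine ⟨1, fun N hN => ?_⟩
    obtain ⟨N, rfl⟩ : ∃ N', N = N' + 1 := ⟨N - 1, by omega⟩
    have h1 : (∏ ω, Φ ω) * (x / Φ ω₀) = ∏ ω, (if ω = ω₀ then x else Φ ω) := by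
      rw [← Finset.mul_prod_erase Finset.univ Φ (Finset.mem_univ ω₀),
        ← Finset.mul_prod_erase Finset.univ (fun ω => if ω = ω₀ then x else Φ ω)
          (Finset.mem_univ ω₀), if_pos rfl]
      have h2 : ∏ ω ∈ Finset.univ.erase ω₀, (if ω = ω₀ then x else Φ ω) =
          ∏ ω ∈ Finset.univ.erase ω₀, Φ ω :=
        Finset.prod_congr rfl fun j hj => by rw [if_neg (Finset.ne_of_mem_erase hj)]
      rw [h2, mul_right_comm, mul_div_cancel₀ _ (hΦ.ne ω₀)]
    rw [pow_succ, mul_assoc, h1, Nat.mul_succ]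
    refine TT_mul M (d * N) d (Submodule.mul_mem_mul (NF_pow hG hΦ.mem N) ?_)
    apply prod_TT M (k_M hG)
    intro ω
    split_ifs with hω
    · subst hω
      exact Submodule.subset_span hx
    · exact hΦ.mem ω
  · rintro x y ⟨N₁, h₁⟩ ⟨N₂, h₂⟩
    refine ⟨max N₁ N₂, fun N hN => ?_⟩
    rw [mul_add]
    exact Submodule.add_mem _ (h₁ N (le_trans (le_max_left _ _) hN))
      (h₂ N (le_trans (le_max_right _ _) hN))
  · rintro x y ⟨N₁, h₁⟩ ⟨N₂, h₂⟩
    refine ⟨N₁ + N₂, fun N hN => ?_⟩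
    obtain ⟨N', rfl⟩ : ∃ N', N = N₁ + N' := ⟨N - N₁, by omega⟩
    have h3 := Submodule.mul_mem_mul (h₁ N₁ le_rfl) (h₂ N' (by omega))
    have h4 := TT_mul M _ _ h3
    rw [← Nat.mul_add] at h4
    have h5 : (∏ ω, Φ ω) ^ (N₁ + N') * (x * y) =
        (∏ ω, Φ ω) ^ N₁ * x * ((∏ ω, Φ ω) ^ N' * y) := by
      rw [pow_add]
      ring
    rw [h5]
    exact h4

end gen

/-- **The generic fibre.** -/
theorem t_GMOG : S_DSCG → S_GMOG := by
  intro hD k O M Y K G Ω _ _ _ _ _ _ _ _ _ _ _ _ _ _ _ _ _ _ _ ι ρ T m z hG M₀ hM s N _ 𝔔 p l τ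
    hs hp d Φ hd hΦ h hh
  obtain ⟨σ, hσ⟩ := k_M hG s
  refine ⟨?_, ?_, ?_⟩
  · apply T_sat hD hG hM
    have h1 := NF_pow hG hΦ.mem 1
    rw [pow_one, mul_one] at h1
    rw [hh, mul_comm, ← hσ, ← Algebra.smul_def]
    exact Submodule.smul_mem _ _ h1
  · intro x hx
    obtain ⟨b, hb, h1⟩ := T_frac hG hs (Φ := Φ) (ι x) (le_TT M d (pow_SG hG hM d x hx))
    obtain ⟨c, r, hc, hcr⟩ := exists_norm hG.toGB hb
    refine ⟨c, hc, ?_⟩
    rw [mem_GRG hp, map_smul, map_div₀, hh, Algebra.smul_def,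
      IsScalarTower.algebraMap_apply k O K, hcr, map_mul, mul_comm (algebraMap O K b), mul_assoc]
    exact mul_mem (CF_OL (OL_alg r)) h1
  · intro f hf
    rw [mem_GRG hp] at hf
    obtain ⟨N₀, hN⟩ := CF_TT hG hs hΦ _ hf
    refine ⟨N₀, fun N hN' => ?_⟩
    apply T_sat hD hG hM
    have h1 : ι (h ^ N * f) = σ ^ N • ((∏ ω, Φ ω) ^ N * ι f) := by
      rw [map_mul, map_pow, hh, Algebra.smul_def, map_pow, hσ, mul_pow]
      ring
    rw [h1]
    exact Submodule.smul_mem _ _ (hN N hN')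

end Pool.Agent.Y614.GM
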